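import Pool.Agent.Helper18.FF3.Stmts

/-!
# Birational sections over function fields, Part III: the module END (pure algebra)
-/

set_option autoImplicit false

namespace Pool.Agent.Helper18.FF3

open Polynomial

/-- polynomials which agree at infinitely many points `τ + a` are equal -/
theorem end_ext {K : Type} [Field K] [CharZero K] (τ : K) (S : Set ℕ) (hS : S.Infinite) (f g : K[X])
    (h : ∀ a ∈ S, f.eval (τ + (a : K)) = g.eval (τ + (a : K))) : f = g := by
  apply Polynomial.eq_of_infinite_eval_eq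
  have hinj : Function.Injective (fun a : ℕ => τ + (a : K)) := by
    intro a b hab
    have hab' : (a : K) = (b : K) := add_left_cancel hab
    exact Nat.cast_injective hab'
  refine (hS.image hinj.injOn).mono ?_
  rintro _ ⟨a, ha, rfl⟩
  exact h a ha

/-- the set of naturals which are roots of a nonzero polynomial is finite -/
theorem end_fin {K : Type} [Field K] [CharZero K] (f : K[X]) (hf : f ≠ 0) :
    {m : ℕ | f.eval (m : K) = 0}.Finite := by
  by_contra h
  have h' : {m : ℕ | f.eval (m : K) = 0}.Infinite := h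
  apply hf
  refine end_ext 0 _ h' f 0 ?_
  intro a ha
  have ha' : f.eval (a : K) = 0 := ha
  rw [zero_add, ha', eval_zero]

/-- an infinite set of naturals minus a finite set is nonempty -/
theorem end_pick (S Z : Set ℕ) (hS : S.Infinite) (hZ : Z.Finite) : (S \ Z).Infinite := hS.sdiff hZ

/-- a common set of `n + 1` good points which are not roots for infinitely many indices -/
theorem end_blocks {K : Type} [Field K] [CharZero K] (n : ℕ) (χ : ℕ → K[X])
    (hχ : ∀ a, χ a ≠ 0 ∧ (χ a).natDegree ≤ n) (N : Set ℕ) (hN : N.Infinite) :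
    ∃ (s : Finset ℕ) (I : Set ℕ), s.card = n + 1 ∧ (∀ m ∈ s, m ∈ N) ∧ I.Infinite ∧
      ∀ a ∈ I, ∀ m ∈ s, (χ a).eval (m : K) ≠ 0 := by
  classical
  obtain ⟨S0, hS0, hcard⟩ := hN.exists_subset_card_eq (2 * n + 1)
  let f : ℕ → S0.powerset := fun a =>
    ⟨S0.filter (fun m : ℕ => (χ a).eval (m : K) ≠ 0), Finset.mem_powerset.2 (Finset.filter_subset _ _)⟩
  obtain ⟨y, hy⟩ := Finite.exists_infinite_fiber f
  have hI : (f ⁻¹' {y}).Infinite := Set.infinite_coe_iff.1 hy
  obtain ⟨a1, ha1⟩ := hI.nonempty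
  have hfa : f a1 = y := ha1
  have hy1 : S0.filter (fun m : ℕ => (χ a1).eval (m : K) ≠ 0) = y.1 := by
    rw [← hfa]
  have hcy : n + 1 ≤ y.1.card := by
    have h1 := Finset.card_filter_add_card_filter_not (s := S0) (fun m : ℕ => (χ a1).eval (m : K) ≠ 0)
    have h2 : (S0.filter (fun m : ℕ => ¬ (χ a1).eval (m : K) ≠ 0)).card ≤ n := by
      have h3 : (S0.filter (fun m : ℕ => ¬ (χ a1).eval (m : K) ≠ 0)).image (fun m : ℕ => (m : K)) ⊆
          (χ a1).roots.toFinset := by
        intro x hx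
        obtain ⟨m, hm, rfl⟩ := Finset.mem_image.1 hx
        have hm2 := (Finset.mem_filter.1 hm).2
        rw [not_not] at hm2
        rw [Multiset.mem_toFinset, mem_roots (hχ a1).1]
        exact hm2
      have h4 := Finset.card_le_card h3
      rw [Finset.card_image_of_injective _ Nat.cast_injective] at h4
      have h5 := Multiset.toFinset_card_le (χ a1).roots
      have h6 := Polynomial.card_roots' (χ a1)
      have h7 := (hχ a1).2
      omega
    rw [hy1, hcard] at h1
    omega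
  obtain ⟨s, hs, hsc⟩ := Finset.exists_subset_card_eq hcy
  refine ⟨s, f ⁻¹' {y}, hsc, ?_, hI, ?_⟩
  · intro m hm
    have h1 : m ∈ y.1 := hs hm
    rw [← hy1] at h1
    exact hS0 (Finset.mem_filter.1 h1).1
  · intro a ha m hm
    have hfa' : f a = y := ha
    have hya : S0.filter (fun m : ℕ => (χ a).eval (m : K) ≠ 0) = y.1 := by
      rw [← hfa']
    have h1 : m ∈ y.1 := hs hm
    rw [← hya] at h1
    exact (Finset.mem_filter.1 h1).2

/-- evaluation at a polynomial point and specialization -/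
theorem end_ev {K : Type} [Field K] (R : K[X][X]) (c : K[X]) (x : K) :
    (R.eval c).eval x = (R.map (evalRingHom x)).eval (c.eval x) := by
  rw [eval_map]
  exact (Polynomial.eval₂_hom (evalRingHom x) c (p := R)).symm

/-- the interpolating polynomial -/
theorem end_interp {K : Type} [Field K] [CharZero K] (n : ℕ) (R : K[X][X]) (s : Finset ℕ) (β : ℕ → K)
    (hs : s.card = n + 1) :
    ∃ G : K[X][X], ∀ (x d : K) (c0 : K) (P χ : K[X]), χ.natDegree ≤ n →
      R.map (evalRingHom x) = C d * P →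
      (∀ m ∈ s, χ.eval (m : K) * P.eval c0 = β m * (χ.eval c0 * P.eval (m : K))) →
      C (χ.eval c0) * G.map (evalRingHom x) = C (d * P.eval c0) * χ := by
  classical
  refine ⟨∑ m ∈ s, C (C (β m) * R.eval (C (m : K))) * (Lagrange.basis s (fun m : ℕ => (m : K)) m).map C, ?_⟩
  intro x d c0 P χ hdeg hR hβ
  have hinj : Set.InjOn (fun m : ℕ => (m : K)) (s : Set ℕ) := fun a _ b _ hab => Nat.cast_injective hab
  have hG : (∑ m ∈ s, C (C (β m) * R.eval (C (m : K))) *
      (Lagrange.basis s (fun m : ℕ => (m : K)) m).map C).map (evalRingHom x) =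
      Lagrange.interpolate s (fun m : ℕ => (m : K)) (fun m => β m * (d * P.eval (m : K))) := by
    rw [Lagrange.interpolate_apply, Polynomial.map_sum]
    refine Finset.sum_congr rfl ?_
    intro m hm
    rw [Polynomial.map_mul, map_C, Polynomial.map_map]
    have h1 : (evalRingHom x).comp (C : K →+* K[X]) = RingHom.id K := by
      ext y
      simp
    rw [h1, Polynomial.map_id]
    congr 2
    rw [map_mul, coe_evalRingHom, eval_C, end_ev, hR, eval_C, eval_mul, eval_C]
  rw [hG]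
  have hdeg' : χ.degree < (s.card : WithBot ℕ) := by
    rw [hs]
    refine lt_of_le_of_lt degree_le_natDegree ?_
    exact_mod_cast Nat.lt_succ_of_le hdeg
  have hχ := Lagrange.eq_interpolate (v := fun m : ℕ => (m : K)) hinj hdeg'
  rw [← smul_eq_C_mul, ← smul_eq_C_mul]
  conv_rhs => rw [hχ]
  rw [← map_smul, ← map_smul]
  apply Lagrange.interpolate_eq_of_values_eq_on
  intro m hm
  have h := hβ m hm
  simp only [Pi.smul_apply, smul_eq_mul]
  linear_combination (-d) * h

/-- the core of END, over a field of characteristic zero -/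
theorem end_core (hW : Pool.Agent.Helper60.FF.ST_WRO) {K : Type} [Field K] [CharZero K] (n : ℕ)
    (τ : K) (R : K[X][X]) (hR : R ≠ 0) (D : ℕ → K) (P : ℕ → K[X]) (hP : ∀ a, P a ≠ 0)
    (hRP : ∀ a : ℕ, R.map (evalRingHom (τ + (a : K))) = C (D a) * P a)
    (hD : ∀ a, D a ≠ 0) (χ : ℕ → K[X]) (hχ : ∀ a, χ a ≠ 0 ∧ (χ a).natDegree ≤ n) (T : Set K[X])
    (hT1 : ∀ m : ℕ, C (m : K) ∈ T) (hT2 : ∀ m : ℕ, C (m : K) + X ∈ T)
    (e r : ℕ → K[X] → K) (he : ∀ (a : ℕ) (c : K[X]), e a c = (χ a).eval (c.eval (τ + (a : K))))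
    (hr : ∀ (a : ℕ) (c : K[X]), r a c = (P a).eval (c.eval (τ + (a : K))))
    (hdich : ∀ c ∈ T, (∀ a, r a c ≠ 0) ∨ (∀ a, r a c = 0))
    (hid : ∀ (a a' : ℕ), ∀ c ∈ T, ∀ c' ∈ T, (∀ b, r b c ≠ 0) → (∀ b, r b c' ≠ 0) →
      e a c ≠ 0 → e a c' ≠ 0 → e a' c ≠ 0 → e a' c' ≠ 0 →
      e a c * r a c' * (e a' c' * r a' c) = e a c' * r a c * (e a' c * r a' c')) :
    ∀ (a : ℕ) (x : K), (χ a).eval x = 0 → (P a).eval x = 0 := by
  classical
  -- values at naturals
  have heN : ∀ (a m : ℕ), e a (C (m : K)) = (χ a).eval (m : K) := by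
    intro a m; rw [he, eval_C]
  have hrN : ∀ (a m : ℕ), r a (C (m : K)) = (P a).eval (m : K) := by
    intro a m; rw [hr, eval_C]
  have hRe : ∀ (a : ℕ) (c : K[X]), (R.eval c).eval (τ + (a : K)) = D a * r a c := by
    intro a c
    rw [end_ev, hRP, eval_mul, eval_C, hr]
  -- good naturals
  let N : Set ℕ := {m : ℕ | ∀ a, r a (C (m : K)) ≠ 0}
  have hNc : (Nᶜ).Finite := by
    refine (end_fin (P 0) (hP 0)).subset ?_
    intro m hm
    have hm' : ¬ ∀ a, r a (C (m : K)) ≠ 0 := hm
    rcases hdich _ (hT1 m) with h | h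
    · exact absurd h hm'
    · have h0 := h 0
      rw [hrN] at h0
      exact h0
  have hN : N.Infinite := by
    have h1 : (Nᶜ)ᶜ.Infinite := hNc.infinite_compl
    rwa [compl_compl] at h1
  obtain ⟨s, I, hs, hsN, hI, hIs⟩ := end_blocks n χ hχ N hN
  have hsne : s.Nonempty := by
    rw [← Finset.card_pos, hs]; omega
  obtain ⟨m0, hm0⟩ := hsne
  obtain ⟨a1, ha1⟩ := hI.nonempty
  have hm0N : ∀ a, r a (C (m0 : K)) ≠ 0 := hsN m0 hm0
  let β : ℕ → K := fun m => e a1 (C (m : K)) * r a1 (C (m0 : K)) / (e a1 (C (m0 : K)) * r a1 (C (m : K)))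
  have heI : ∀ a ∈ I, ∀ m ∈ s, e a (C (m : K)) ≠ 0 := by
    intro a ha m hm
    rw [heN]
    exact hIs a ha m hm
  obtain ⟨G, hG⟩ := end_interp n R s β hs
  have hG1 : ∀ a ∈ I, C (e a (C (m0 : K))) * G.map (evalRingHom (τ + (a : K))) =
      C (D a * r a (C (m0 : K))) * χ a := by
    intro a ha
    have h := hG (τ + (a : K)) (D a) (m0 : K) (P a) (χ a) (hχ a).2 (hRP a) ?_
    · rw [heN, hrN]; exact h
    · intro m hm
      have h1 := hid a a1 _ (hT1 m) _ (hT1 m0) (hsN m hm) hm0N (heI a ha m hm) (heI a ha m0 hm0)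
        (heI a1 ha1 m hm) (heI a1 ha1 m0 hm0)
      have h2 : e a1 (C (m0 : K)) * r a1 (C (m : K)) ≠ 0 :=
        mul_ne_zero (heI a1 ha1 m0 hm0) (hsN m hm a1)
      have h3 : β m * (e a1 (C (m0 : K)) * r a1 (C (m : K))) =
          e a1 (C (m : K)) * r a1 (C (m0 : K)) := div_mul_cancel₀ _ h2
      rw [← heN, ← hrN, ← heN, ← hrN]
      apply mul_right_cancel₀ h2
      linear_combination h1 - (e a (C (m0 : K)) * r a (C (m : K))) * h3
  have hG2 : ∀ a ∈ I, ∀ c : K[X], e a (C (m0 : K)) * (G.eval c).eval (τ + (a : K)) =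
      D a * r a (C (m0 : K)) * e a c := by
    intro a ha c
    have h := congrArg (fun f : K[X] => f.eval (c.eval (τ + (a : K)))) (hG1 a ha)
    simp only [eval_mul, eval_C] at h
    rw [end_ev, h, he]
  -- proportionality at the points
  have hprop : ∀ c ∈ T, ∃ x y : K, (x ≠ 0 ∨ y ≠ 0) ∧ C x * G.eval c = C y * R.eval c := by
    intro c hc
    rcases hdich c hc with hgood | hbad
    · by_cases hinf : {a : ℕ | a ∈ I ∧ e a c ≠ 0}.Infinite
      · obtain ⟨a2, ha2, ha2e⟩ := hinf.nonempty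
        have h2 : e a2 (C (m0 : K)) * r a2 c ≠ 0 := mul_ne_zero (heI a2 ha2 m0 hm0) (hgood a2)
        refine ⟨1, e a2 c * r a2 (C (m0 : K)) / (e a2 (C (m0 : K)) * r a2 c), Or.inl one_ne_zero, ?_⟩
        refine end_ext τ _ hinf _ _ ?_
        intro a ha
        obtain ⟨haI, hae⟩ : a ∈ I ∧ e a c ≠ 0 := ha
        have h1 := hid a a2 _ hc _ (hT1 m0) hgood hm0N hae (heI a haI m0 hm0) ha2e
          (heI a2 ha2 m0 hm0)
        have h3 : e a2 c * r a2 (C (m0 : K)) / (e a2 (C (m0 : K)) * r a2 c) *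
            (e a2 (C (m0 : K)) * r a2 c) = e a2 c * r a2 (C (m0 : K)) := div_mul_cancel₀ _ h2
        rw [eval_mul, eval_mul, eval_C, eval_C, one_mul, hRe]
        apply mul_left_cancel₀ (heI a haI m0 hm0)
        rw [hG2 a haI]
        apply mul_right_cancel₀ h2
        linear_combination (D a) * h1 - (D a * e a (C (m0 : K)) * r a c) * h3
      · refine ⟨1, 0, Or.inl one_ne_zero, ?_⟩
        have hinf2 : (I \ {a : ℕ | a ∈ I ∧ e a c ≠ 0}).Infinite :=
          hI.sdiff (Set.not_infinite.1 hinf)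
        refine end_ext τ _ hinf2 _ _ ?_
        intro a ha
        obtain ⟨haI, hae⟩ : a ∈ I ∧ ¬ (a ∈ I ∧ e a c ≠ 0) := ha
        have hae0 : e a c = 0 := by
          by_contra hne
          exact hae ⟨haI, hne⟩
        have h := hG2 a haI c
        rw [hae0, mul_zero] at h
        rw [eval_mul, eval_mul, eval_C, eval_C, one_mul, zero_mul]
        exact (mul_eq_zero.1 h).resolve_left (heI a haI m0 hm0)
    · refine ⟨0, 1, Or.inr one_ne_zero, ?_⟩
      refine end_ext τ _ Set.infinite_univ _ _ ?_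
      intro a _
      rw [eval_mul, eval_mul, eval_C, eval_C, zero_mul, one_mul, hRe, hbad a, mul_zero]
  -- Wronskian criterion
  obtain ⟨q, hq⟩ := hW K G R (Set.range (fun m : ℕ => (m : K)))
    (Set.infinite_range_of_injective Nat.cast_injective) hR
    (by rintro _ ⟨m, rfl⟩; exact hprop _ (hT1 m)) (by rintro _ ⟨m, rfl⟩; exact hprop _ (hT2 m))
  have hq1 : q = 1 := by
    have h1 := hG2 a1 ha1 (C (m0 : K))
    rw [hq, eval_mul, eval_C, eval_mul, eval_C, hRe] at h1
    have h2 : D a1 * r a1 (C (m0 : K)) * e a1 (C (m0 : K)) ≠ 0 :=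
      mul_ne_zero (mul_ne_zero (hD a1) (hm0N a1)) (heI a1 ha1 m0 hm0)
    apply mul_right_cancel₀ h2
    linear_combination h1
  have hGR : G = R := by
    rw [hq, hq1, map_one, map_one, one_mul]
  -- proportionality of `χ` and `P` for the index `a1`
  have hprop1 : ∀ m : ℕ, e a1 (C (m0 : K)) * r a1 (C (m : K)) = r a1 (C (m0 : K)) * e a1 (C (m : K)) := by
    intro m
    have h := hG2 a1 ha1 (C (m : K))
    rw [hGR, hRe] at h
    apply mul_left_cancel₀ (hD a1)
    linear_combination h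
  have hcross : ∀ m m' : ℕ, r a1 (C (m : K)) * e a1 (C (m' : K)) =
      r a1 (C (m' : K)) * e a1 (C (m : K)) := by
    intro m m'
    apply mul_left_cancel₀ (heI a1 ha1 m0 hm0)
    linear_combination e a1 (C (m' : K)) * hprop1 m - e a1 (C (m : K)) * hprop1 m'
  -- any index
  intro a x hx
  have hbadfin : (Nᶜ ∪ ({m : ℕ | (χ a).eval (m : K) = 0} ∪ {m : ℕ | (χ a1).eval (m : K) = 0})).Finite :=
    hNc.union ((end_fin _ (hχ a).1).union (end_fin _ (hχ a1).1))
  have hginf : ((Nᶜ ∪ ({m : ℕ | (χ a).eval (m : K) = 0} ∪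
      {m : ℕ | (χ a1).eval (m : K) = 0}))ᶜ).Infinite := hbadfin.infinite_compl
  have hgood : ∀ m ∈ (Nᶜ ∪ ({m : ℕ | (χ a).eval (m : K) = 0} ∪ {m : ℕ | (χ a1).eval (m : K) = 0}))ᶜ,
      (∀ b, r b (C (m : K)) ≠ 0) ∧ e a (C (m : K)) ≠ 0 ∧ e a1 (C (m : K)) ≠ 0 := by
    intro m hm
    refine ⟨?_, ?_, ?_⟩
    · by_contra h
      exact hm (Or.inl h)
    · intro h
      rw [heN] at h
      exact hm (Or.inr (Or.inl h))
    · intro h
      rw [heN] at h
      exact hm (Or.inr (Or.inr h))
  obtain ⟨m', hm'⟩ := hginf.nonempty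
  obtain ⟨hr', he', he1'⟩ := hgood m' hm'
  have hfin : C (r a (C (m' : K))) * χ a = C (e a (C (m' : K))) * P a := by
    refine end_ext 0 _ hginf _ _ ?_
    intro m hm
    obtain ⟨hrm, hem, he1m⟩ := hgood m hm
    have h1 := hid a a1 _ (hT1 m) _ (hT1 m') hrm hr' hem he' he1m he1'
    have h2 := hcross m m'
    rw [zero_add, eval_mul, eval_mul, eval_C, eval_C, ← heN, ← hrN]
    have h3 : r a1 (C (m : K)) * e a1 (C (m' : K)) ≠ 0 := mul_ne_zero (hrm a1) he1'
    apply mul_right_cancel₀ h3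
    linear_combination h1 - (e a (C (m' : K)) * r a (C (m : K))) * h2
  have h := congrArg (fun f : K[X] => f.eval x) hfin
  simp only [eval_mul, eval_C] at h
  rw [hx, mul_zero] at h
  exact (mul_eq_zero.1 h.symm).resolve_left he'

/-- END -/
theorem st_END (hW : Pool.Agent.Helper60.FF.ST_WRO) : ST_END := by
  intro F K _ _ _ _ n j ρ χ hjC hjX hρ hχ hid
  classical
  set τ : K := j 0 RatFunc.X with hτ
  let s0 : F →+* K := (j 0).comp RatFunc.C
  -- the embeddings on polynomials
  have hjp : ∀ a : ℕ, (j a).comp (algebraMap F[X] (RatFunc F)) =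
      (evalRingHom (τ + (a : K))).comp (mapRingHom s0) := by
    intro a
    apply Polynomial.ringHom_ext
    · intro x
      simp only [RingHom.comp_apply, RatFunc.algebraMap_C, coe_mapRingHom, map_C, coe_evalRingHom,
        eval_C]
      exact hjC a x
    · simp only [RingHom.comp_apply, RatFunc.algebraMap_X, coe_mapRingHom, map_X, coe_evalRingHom,
        eval_X]
      exact hjX a
  -- clearing denominators
  obtain ⟨b, hbM, hb⟩ := IsLocalization.integerNormalization_spec (nonZeroDivisors F[X]) ρ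
  set R0 : F[X][X] := IsLocalization.integerNormalization (nonZeroDivisors F[X]) ρ with hR0
  have hbne : algebraMap F[X] (RatFunc F) b ≠ 0 := by
    intro h
    have h1 := RatFunc.algebraMap_injective F (h.trans (map_zero _).symm)
    exact nonZeroDivisors.ne_zero hbM h1
  have hb' : R0.map (algebraMap F[X] (RatFunc F)) = C (algebraMap F[X] (RatFunc F) b) * ρ := by
    rw [hb, ← algebraMap_smul (RatFunc F) b ρ, smul_eq_C_mul]
  have hRP : ∀ a : ℕ, (R0.map (mapRingHom s0)).map (evalRingHom (τ + (a : K))) =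
      C (j a (algebraMap F[X] (RatFunc F) b)) * ρ.map (j a) := by
    intro a
    rw [Polynomial.map_map, ← hjp a, ← Polynomial.map_map, hb', Polynomial.map_mul, map_C]
  have hD : ∀ a : ℕ, j a (algebraMap F[X] (RatFunc F) b) ≠ 0 := by
    intro a h
    exact hbne ((map_eq_zero (j a)).1 h)
  have hP : ∀ a : ℕ, ρ.map (j a) ≠ 0 := fun a => (Polynomial.map_ne_zero_iff (j a).injective).2 hρ
  have hR : R0.map (mapRingHom s0) ≠ 0 := by
    intro h
    have h1 := hRP 0
    rw [h, Polynomial.map_zero] at h1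
    exact mul_ne_zero (C_ne_zero.2 (hD 0)) (hP 0) h1.symm
  -- the points
  have hval : ∀ (a : ℕ) (c0 : F[X]), (c0.map s0).eval (τ + (a : K)) =
      j a (algebraMap F[X] (RatFunc F) c0) := by
    intro a c0
    have h := congrArg (fun f : F[X] →+* K => f c0) (hjp a)
    simp only [RingHom.comp_apply, coe_mapRingHom, coe_evalRingHom] at h
    exact h.symm
  have hPj : ∀ (a : ℕ) (c0 : F[X]), (ρ.map (j a)).eval (j a (algebraMap F[X] (RatFunc F) c0)) =
      j a (ρ.eval (algebraMap F[X] (RatFunc F) c0)) := by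
    intro a c0
    rw [eval_map, Polynomial.eval₂_hom]
  have hPe : ∀ (a : ℕ) (c0 : F[X]), (ρ.map (j a)).eval ((c0.map s0).eval (τ + (a : K))) =
      j a (ρ.eval (algebraMap F[X] (RatFunc F) c0)) := by
    intro a c0
    rw [hval, hPj]
  refine end_core hW n τ (R0.map (mapRingHom s0)) hR
    (fun a => j a (algebraMap F[X] (RatFunc F) b)) (fun a => ρ.map (j a)) hP hRP hD χ hχ
    (Set.range (fun c0 : F[X] => c0.map s0)) ?_ ?_
    (fun a c => (χ a).eval (c.eval (τ + (a : K)))) (fun a c => (ρ.map (j a)).eval (c.eval (τ + (a : K))))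
    (fun _ _ => rfl) (fun _ _ => rfl) ?_ ?_
  · intro m
    refine ⟨C (m : F), ?_⟩
    simp
  · intro m
    refine ⟨C (m : F) + X, ?_⟩
    simp
  · rintro _ ⟨c0, rfl⟩
    by_cases h : ρ.eval (algebraMap F[X] (RatFunc F) c0) = 0
    · right
      intro a
      change (ρ.map (j a)).eval ((c0.map s0).eval (τ + (a : K))) = 0
      rw [hPe, h, map_zero]
    · left
      intro a
      change (ρ.map (j a)).eval ((c0.map s0).eval (τ + (a : K))) ≠ 0
      rw [hPe]
      exact fun h' => h ((map_eq_zero (j a)).1 h')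
  · rintro a a' _ ⟨c0, rfl⟩ _ ⟨c1, rfl⟩ h0 h1 e1 e2 e3 e4
    have h0' := h0 0
    have h1' := h1 0
    simp only [hval, hPj] at h0' h1' e1 e2 e3 e4 ⊢
    refine hid a a' _ _ ?_ ?_ e1 e2 e3 e4
    · exact fun h => h0' (by rw [h, map_zero])
    · exact fun h => h1' (by rw [h, map_zero])

end Pool.Agent.Helper18.FF3
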